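import Pool.Agent.Run7.h44.Par.Main2

/-!
# Coloured ternary partitions: the negative answer to Q2, and the prime `p = 3`

For `p = 3` and `m = 8 mod 9` the bound of Q2 is never attained, for any `n`.  For `p = 3` and the
other `m = 2 mod 3` it holds and is attained for all `n` prime to `3`, and for `m = 1 mod 3` the
formula of Q1 is correct.
-/

set_option autoImplicit false

namespace Pool.Agent.Results.MP_26251e_nt.TernaryCase

open PowerSeries Finset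

/-- `d p m n` is the coefficient of `x^n` in
`(1 - x)^(-m) * ∏_{j ≥ 0} (1 - x^(p^j))^(-(p-1)m)`.  For `p ≥ 2` the factors with `j > n` do not
influence this coefficient, because `p^j > n` for them; so the product over `0 ≤ j ≤ n` is taken.
Here `invOfUnit (1 - X ^ a) 1` is the inverse power series of `1 - X ^ a` (for `a ≥ 1`). -/
noncomputable def d (p m n : ℕ) : ℤ :=
  coeff n ((invOfUnit (1 - X : ℤ⟦X⟧) 1) ^ m *
    ∏ j ∈ range (n + 1), (invOfUnit (1 - X ^ (p ^ j) : ℤ⟦X⟧) 1) ^ ((p - 1) * m))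

/-- The `p`-adic valuation of `d_m(p^2 n) - d_m(n)` (`⊤` if the difference is zero). -/
noncomputable def v (p m n : ℕ) : ℕ∞ := emultiplicity (p : ℤ) (d p m (p ^ 2 * n) - d p m n)

/-- The number `ν_p(n) + 4 - [p = 3]`. -/
def bound (p n : ℕ) : ℕ := padicValNat p n + 4 - (if p = 3 then 1 else 0)

/-- The assertion of Q2 for given `p` and `m`: the lower bound holds for all `n ≥ 1`, and it is
attained for infinitely many `n`. -/
def Assertion (p m : ℕ) : Prop :=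
  (∀ n : ℕ, 1 ≤ n → (bound p n : ℕ∞) ≤ v p m n) ∧
    {n : ℕ | 1 ≤ n ∧ v p m n = (bound p n : ℕ∞)}.Infinite

/-- Q2: the assertion holds for all primes `p ≥ 3` and all `m ≥ 1` with `m = p - 1 mod p`. -/
def Q2 : Prop :=
  ∀ p : ℕ, p.Prime → 3 ≤ p → ∀ m : ℕ, 1 ≤ m → m % p = p - 1 → Assertion p m

open Run7.h44.Par in
theorem d_eq (m n : ℕ) : d 3 m n = coeff n (G m) := by
  rw [G, coeff_mk, d, Pr]
  have h : (invOfUnit (1 - X : ℤ⟦X⟧) 1) = Pool.Agent.R443.PS.iv 1 := by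
    rw [Pool.Agent.R443.PS.iv, pow_one]
  rw [h]
  rfl

theorem v_eq (m n : ℕ) : v 3 m n = emultiplicity (3 : ℤ)
    (coeff (9 * n) (Run7.h44.Par.G m) - coeff n (Run7.h44.Par.G m)) := by
  rw [v, d_eq, d_eq]
  norm_num

theorem le_v (m e : ℕ) (h : Run7.h44.Par.Base m e) (n : ℕ) (hn : 1 ≤ n) :
    ((padicValNat 3 n + e + 2 : ℕ) : ℕ∞) ≤ v 3 m n := by
  rw [v_eq]
  exact le_emultiplicity_of_pow_dvd (Run7.h44.Par.dvd_two m e h n (by omega))

theorem val_three_mul (n : ℕ) (hn : 1 ≤ n) : padicValNat 3 (3 * n) = padicValNat 3 n + 1 := by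
  have : Fact (Nat.Prime 3) := ⟨Nat.prime_three⟩
  rw [padicValNat.mul (by norm_num) (by omega), padicValNat.self (by norm_num), add_comm]

/-- `m = 1 mod 3`: the formula of Q1 -/
theorem v_one (m : ℕ) (hm : m % 3 = 1) (n : ℕ) (hn : 1 ≤ n) :
    v 3 m n = ((padicValNat 3 n + 2 : ℕ) : ℕ∞) := by
  have hfact : Fact (Nat.Prime 3) := ⟨Nat.prime_three⟩
  rw [v_eq, emultiplicity_eq_coe]
  refine ⟨Run7.h44.Par.dvd_two m 0 (Run7.h44.Par.base_zero m) n (by omega), fun h => ?_⟩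
  obtain ⟨u, hu⟩ : 3 ^ padicValNat 3 n ∣ n := pow_padicValNat_dvd
  have hu3 : ¬ 3 ∣ u := by
    rintro ⟨k, hk⟩
    apply pow_succ_padicValNat_not_dvd (p := 3) (n := n) (by omega)
    refine ⟨k, ?_⟩
    rw [pow_succ, mul_assoc, ← hk]
    exact hu
  have h1 := Run7.h44.Par.exact_one m hm (padicValNat 3 n) u hu3
  have h2 : 3 ^ (padicValNat 3 n + 1) * u = 3 * n := by
    rw [pow_succ', mul_assoc, ← hu]
  rw [h2, ← hu] at h1
  apply h1
  have h3 := Run7.h44.Par.dvd_one m 0 (Run7.h44.Par.base_zero m) (3 * n)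
  rw [val_three_mul n hn, show 3 * (3 * n) = 9 * n by ring] at h3
  have h4 := dvd_sub h h3
  rwa [sub_sub_sub_cancel_left] at h4

/-- `m = 2` or `5 mod 9`, `n` prime to `3` -/
theorem v_two (m : ℕ) (hm : m % 9 = 2 ∨ m % 9 = 5) (n : ℕ) (hn : ¬ 3 ∣ n) : v 3 m n = 3 := by
  have hfact : Fact (Nat.Prime 3) := ⟨Nat.prime_three⟩
  have hn0 : n ≠ 0 := by
    rintro rfl
    simp at hn
  have hb : Run7.h44.Par.Base m 1 := Run7.h44.Par.base_one m (by omega)
  have hv : padicValNat 3 n = 0 := padicValNat.eq_zero_of_not_dvd hn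
  have e3 : (3 : ℕ∞) = ((3 : ℕ) : ℕ∞) := rfl
  rw [v_eq, e3, emultiplicity_eq_coe]
  have h2 := Run7.h44.Par.dvd_two m 1 hb n hn0
  rw [hv] at h2
  refine ⟨h2, fun h => ?_⟩
  apply Run7.h44.Par.exact_two m hm n hn
  have h3 := Run7.h44.Par.dvd_one m 1 hb (3 * n)
  rw [val_three_mul n (by omega), hv, show 3 * (3 * n) = 9 * n by ring] at h3
  have h4 := dvd_sub h h3
  rw [sub_sub_sub_cancel_left] at h4
  exact h4

/-- **The negative answer to Q2, and the prime `3`.**  (1) Q2 is false.  (2) For `p = 3` and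
`m = 2 mod 3` the assertion of Q2 holds if and only if `m` is not `8 mod 9`.  (3) If `m = 8 mod 9`
then the valuation is at least `ν_3(n) + 4` for every `n ≥ 1`, so the bound `ν_3(n) + 3` of Q2 is
never attained.  (4) If `m = 2 mod 3` the bound `ν_3(n) + 3` holds for all `n ≥ 1`, and if moreover
`m` is not `8 mod 9` it is attained by all `n` prime to `3`.  (5) If `m = 1 mod 3` the valuation is
`ν_3(n) + 2` for every `n ≥ 1`, the formula of Q1. -/
theorem result :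
    ¬ Q2 ∧
    (∀ m : ℕ, m % 3 = 2 → (Assertion 3 m ↔ m % 9 ≠ 8)) ∧
    (∀ m : ℕ, m % 9 = 8 → ∀ n : ℕ, 1 ≤ n → ((padicValNat 3 n + 4 : ℕ) : ℕ∞) ≤ v 3 m n) ∧
    (∀ m : ℕ, m % 3 = 2 → ∀ n : ℕ, 1 ≤ n → ((padicValNat 3 n + 3 : ℕ) : ℕ∞) ≤ v 3 m n ∧
      (m % 9 ≠ 8 → ¬ 3 ∣ n → v 3 m n = 3)) ∧
    (∀ m : ℕ, m % 3 = 1 → ∀ n : ℕ, 1 ≤ n → v 3 m n = ((padicValNat 3 n + 2 : ℕ) : ℕ∞)) := by
  have hfact : Fact (Nat.Prime 3) := ⟨Nat.prime_three⟩
  have h8 : ∀ m : ℕ, m % 9 = 8 → ∀ n : ℕ, 1 ≤ n →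
      ((padicValNat 3 n + 4 : ℕ) : ℕ∞) ≤ v 3 m n := fun m hm n hn =>
    le_v m 2 (Run7.h44.Par.base_two m hm) n hn
  have h2 : ∀ m : ℕ, m % 3 = 2 → ∀ n : ℕ, 1 ≤ n →
      ((padicValNat 3 n + 3 : ℕ) : ℕ∞) ≤ v 3 m n ∧ (m % 9 ≠ 8 → ¬ 3 ∣ n → v 3 m n = 3) :=
    fun m hm n hn => ⟨le_v m 1 (Run7.h44.Par.base_one m hm) n hn,
      fun h9 h3 => v_two m (by omega) n h3⟩
  have hb : ∀ n : ℕ, bound 3 n = padicValNat 3 n + 3 := fun n => by
    unfold bound
    simp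
  have hA8 : ∀ m : ℕ, m % 9 = 8 → ¬ Assertion 3 m := by
    rintro m hm ⟨-, hinf⟩
    apply hinf
    have : {n : ℕ | 1 ≤ n ∧ v 3 m n = (bound 3 n : ℕ∞)} = ∅ := by
      ext n
      simp only [Set.mem_ofPred_eq, Set.mem_empty_iff_false, iff_false, not_and]
      intro hn h
      have h4 := h8 m hm n hn
      rw [h, hb n] at h4
      have h5 : padicValNat 3 n + 4 ≤ padicValNat 3 n + 3 := by exact_mod_cast h4
      omega
    rw [this]
    exact Set.finite_empty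
  have hA : ∀ m : ℕ, m % 3 = 2 → m % 9 ≠ 8 → Assertion 3 m := by
    intro m hm h9
    refine ⟨fun n hn => ?_, ?_⟩
    · rw [hb n]
      exact (h2 m hm n hn).1
    · have hsub : Set.range (fun k : ℕ => 3 * k + 1) ⊆
          {n : ℕ | 1 ≤ n ∧ v 3 m n = (bound 3 n : ℕ∞)} := by
        rintro n ⟨k, rfl⟩
        have hk : ¬ 3 ∣ 3 * k + 1 := by omega
        have hk1 : 1 ≤ 3 * k + 1 := by omega
        refine ⟨hk1, ?_⟩
        change v 3 m (3 * k + 1) = (bound 3 (3 * k + 1) : ℕ∞)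
        rw [hb, padicValNat.eq_zero_of_not_dvd hk, (h2 m hm (3 * k + 1) hk1).2 h9 hk]
        rfl
      refine Set.Infinite.mono hsub (Set.infinite_range_of_injective ?_)
      intro a b h
      have : 3 * a + 1 = 3 * b + 1 := h
      omega
  refine ⟨fun h => ?_, fun m hm => ⟨fun h h9 => hA8 m h9 h, fun h => hA m hm h⟩, h8, h2,
    fun m hm n hn => v_one m hm n hn⟩
  exact hA8 8 (by norm_num) (h 3 Nat.prime_three le_rfl 8 (by norm_num) (by norm_num))

end Pool.Agent.Results.MP_26251e_nt.TernaryCase
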